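import Pool.Agent.Helper85.QT.St1

/-! Project QT, module SB1: the hull function is finite. -/

set_option autoImplicit false

open MeasureTheory Matrix Set Topology
open scoped ENNReal ComplexConjugate

namespace Pool.Agent.Helper21.QT

open Pool.Agent.Helper85.QT Pool.Agent.Helper86.QA

theorem sb1_real (α q0 D w : ℝ) (hα : 0 ≤ α) (hq : 0 ≤ q0) (hD : 0 ≤ D) (hw : 0 ≤ w)
    (hw2 : w ^ 2 = α * q0 + 1) : -(2 * D) ≤ q0 - 2 * w * D + α * D ^ 2 := by
  have hw1 : 1 ≤ w := by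
    have h1 : 0 ≤ α * q0 := mul_nonneg hα hq
    nlinarith
  rcases hα.lt_or_eq with h | h
  · have key : 0 ≤ α * (q0 - 2 * w * D + α * D ^ 2 + 2 * D) := by
      set y : ℝ := α * D with hy
      have hy0 : 0 ≤ y := mul_nonneg hα hD
      have e : α * (q0 - 2 * w * D + α * D ^ 2 + 2 * D) = (w - y) ^ 2 - 1 + 2 * y := by
        rw [hy]; linear_combination -hw2
      rw [e]
      rcases le_or_gt (1 / 2) y with h1 | h1
      · nlinarith [sq_nonneg (w - y)]
      · have h2 : 1 - y ≤ w - y := by linarith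
        have h3 : 0 ≤ 1 - y := by linarith
        nlinarith [mul_le_mul h2 h2 h3 (by linarith), sq_nonneg y]
    have := nonneg_of_mul_nonneg_right key h
    linarith
  · rw [← h] at hw2 ⊢
    have : w = 1 := by nlinarith
    rw [this]
    nlinarith

theorem sb1_qf {H : Mat} (hH : H.IsHermitian) (z : ℂ) :
    qf H z = (H 0 0).re * (z.re ^ 2 + z.im ^ 2) + 2 * ((H 0 1).re * z.re + (H 0 1).im * z.im) +
      (H 1 1).re := by
  have h00 := hH.apply 0 0
  have h01 := hH.apply 1 0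
  have e1 : (H 0 0).im = 0 := by
    have := congrArg Complex.im h00
    simp at this
    linarith
  have e2 : (H 1 0).re = (H 0 1).re := by rw [← h01]; simp
  have e3 : (H 1 0).im = -(H 0 1).im := by rw [← h01]; simp
  unfold qf
  simp only [Complex.add_re, Complex.mul_re, Complex.mul_im, Complex.conj_re, Complex.conj_im, e1,
    e2, e3]
  ring

theorem sb1_det {H : Mat} (hH : H.IsHermitian) (hd : H.det = -1) :
    (H 0 0).re * (H 1 1).re - ((H 0 1).re ^ 2 + (H 0 1).im ^ 2) = -1 := by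
  have h00 := hH.apply 0 0
  have h11 := hH.apply 1 1
  have h01 := hH.apply 1 0
  have e1 : (H 0 0).im = 0 := by
    have := congrArg Complex.im h00
    simp at this
    linarith
  have e4 : (H 1 1).im = 0 := by
    have := congrArg Complex.im h11
    simp at this
    linarith
  have e2 : (H 1 0).re = (H 0 1).re := by rw [← h01]; simp
  have e3 : (H 1 0).im = -(H 0 1).im := by rw [← h01]; simp
  rw [Matrix.det_fin_two] at hd
  have := congrArg Complex.re hd
  simp only [Complex.sub_re, Complex.mul_re, Complex.neg_re, Complex.one_re, e1, e2, e3, e4] at this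
  linarith

theorem sb1_low {H : Mat} (hH : H.IsHermitian) (hd : H.det = -1) (h0 : 0 ≤ (H 0 0).re) (ξ z : ℂ)
    (hq : 0 ≤ qf H ξ) : -(2 * ‖z - ξ‖) ≤ qf H z := by
  have e1 := sb1_qf hH z
  have e2 := sb1_qf hH ξ
  have e3 := sb1_det hH hd
  set α := (H 0 0).re
  set b1 := (H 0 1).re
  set b2 := (H 0 1).im
  set δ := (H 1 1).re
  have hD : ‖z - ξ‖ ^ 2 = (z.re - ξ.re) ^ 2 + (z.im - ξ.im) ^ 2 := by
    rw [Complex.sq_norm, Complex.normSq_apply]
    simp only [Complex.sub_re, Complex.sub_im]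
    ring
  have hD0 : 0 ≤ ‖z - ξ‖ := norm_nonneg _
  set w : ℝ := Real.sqrt (α * qf H ξ + 1) with hw
  have hw2 : w ^ 2 = α * qf H ξ + 1 := Real.sq_sqrt (by have := mul_nonneg h0 hq; linarith)
  have hw0 : 0 ≤ w := Real.sqrt_nonneg _
  have hsq : (α * ξ.re + b1) ^ 2 + (α * ξ.im + b2) ^ 2 = w ^ 2 := by
    rw [hw2, e2]
    linear_combination -e3
  have hcs : -(w * ‖z - ξ‖) ≤ (α * ξ.re + b1) * (z.re - ξ.re) + (α * ξ.im + b2) * (z.im - ξ.im) := by
    have h1 : ((α * ξ.re + b1) * (z.re - ξ.re) + (α * ξ.im + b2) * (z.im - ξ.im)) ^ 2 ≤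
        (w * ‖z - ξ‖) ^ 2 := by
      rw [mul_pow, hD, ← hsq]
      nlinarith [sq_nonneg ((α * ξ.re + b1) * (z.im - ξ.im) - (α * ξ.im + b2) * (z.re - ξ.re))]
    exact (abs_le_of_sq_le_sq' h1 (by positivity)).1
  have hreal := sb1_real α (qf H ξ) ‖z - ξ‖ w h0 hq hD0 hw0 hw2
  have hexp : qf H z = qf H ξ + 2 * ((α * ξ.re + b1) * (z.re - ξ.re) +
      (α * ξ.im + b2) * (z.im - ξ.im)) + α * ‖z - ξ‖ ^ 2 := by
    rw [hD, e1, e2]
    ring
  rw [hexp]
  linarith

theorem hSB1 (hSB0 : Pool.Agent.Helper85.QT.StSB0) : Pool.Agent.Helper85.QT.StSB1 := by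
  intro Γ _ ρ A B hK
  obtain ⟨hs1, hs2, -⟩ := hSB0
  have hne : (LS A B).Nonempty := by
    by_contra hcon
    rw [Set.not_nonempty_iff_eq_empty] at hcon
    unfold LS at hcon
    rw [Set.compl_empty_iff] at hcon
    have h1 := (isPreconnected_univ : IsPreconnected (univ : Set ℂ)) A B hK.opA hK.opB hcon.ge
      (by rw [Set.univ_inter]; exact hK.neA) (by rw [Set.univ_inter]; exact hK.neB)
    obtain ⟨p, -, hp1, hp2⟩ := h1
    exact Set.disjoint_left.1 hK.dis hp1 hp2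
  have hcl : IsClosed (LS A B) := (hK.opA.union hK.opB).isClosed_compl
  have hball : ∀ (c : ℂ) (r : ℝ), 0 < r → Disjoint (Metric.ball c r) (LS A B) →
      AdF A B (bH c r) := by
    intro c r hr hdis
    obtain ⟨h1, h2, h3, h4, -⟩ := hs2 c r hr
    refine ⟨h1, h2, ?_, ?_⟩
    · rw [h3]; positivity
    · intro ξ hξ
      rw [h4]
      have h5 : ξ ∉ Metric.ball c r := fun h => Set.disjoint_left.1 hdis h hξ
      rw [Metric.mem_ball, not_lt, dist_eq_norm] at h5
      apply div_nonneg _ hr.le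
      nlinarith
  have hbd : ∀ H, AdF A B H → ∀ x ∈ up, ∀ ξ ∈ LS A B, hf H x ≤ ‖x.1 - ξ‖ / x.2 := by
    intro H hH x hx ξ hξ
    obtain ⟨a1, a2, a3, a4⟩ := hH
    have hx0 : 0 < x.2 := hx
    have h1 := hs1 H x a1 hx
    have h2 := sb1_low a1 a2 a3 ξ x.1 (a4 ξ hξ)
    rw [le_div_iff₀ hx0]
    have h3 : 0 ≤ (H 0 0).re * x.2 ^ 2 := mul_nonneg a3 (by positivity)
    linarith
  have hex : ∃ H, AdF A B H := by
    obtain ⟨a, ha⟩ := hK.neA
    obtain ⟨r, hr, hra⟩ := Metric.isOpen_iff.1 hK.opA a ha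
    refine ⟨bH a r, hball a r hr ?_⟩
    rw [Set.disjoint_left]
    intro y hy hy2
    exact hy2 (Or.inl (hra hy))
  refine ⟨hne, hcl, hex, hbd, hball, ?_⟩
  intro x hx
  obtain ⟨ξ₀, hξ₀⟩ := hne
  have hB : BddAbove {v : ℝ | ∃ H : Mat, AdF A B H ∧ v = hf H x} := by
    refine ⟨‖x.1 - ξ₀‖ / x.2, ?_⟩
    rintro v ⟨H, hH, rfl⟩
    exact hbd H hH x hx ξ₀ hξ₀
  refine ⟨hB, ?_, ?_⟩
  · intro H hH
    exact le_csSup hB ⟨H, hH, rfl⟩
  · intro ξ hξ
    unfold sb
    apply csSup_le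
    · obtain ⟨H, hH⟩ := hex
      exact ⟨hf H x, H, hH, rfl⟩
    · rintro v ⟨H, hH, rfl⟩
      exact hbd H hH x hx ξ hξ

end Pool.Agent.Helper21.QT
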