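import Pool.Agent.Helper85.QT.St1

/-! Project QT, module SH3: hyperbolic area seen from a point of the shell. -/

set_option autoImplicit false

open MeasureTheory Matrix Set Topology
open scoped ENNReal ComplexConjugate

namespace Pool.Agent.Helper21.QT

open Pool.Agent.Helper85.QT Pool.Agent.Helper86.QA

theorem hSH3 (hSB2 : Pool.Agent.Helper85.QT.StSB2) (hSH2 : Pool.Agent.Helper85.QT.StSH2)
    (hKQ : Pool.Agent.Helper85.QT.StKQ) : Pool.Agent.Helper85.QT.StSH3 := by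
  intro Γ _ ρ σ A B F hKD hCF S hS x hx hsb hball
  obtain ⟨c, r, hr, hcr, hA⟩ := hball
  obtain ⟨m₀, hm0, hW, hWprop⟩ := hSH2 x hx c r hr hcr
  obtain ⟨k, hk, hkz⟩ := hSB2 Γ ρ A B hKD S hS x hx hsb
  have ht : 0 < x.2 := hx
  have hLS : ∀ k' ∈ LS A B, k' ∉ Metric.ball c r := by
    intro k' hk' hmem
    exact hk' (Or.inl (hA hmem))
  have hkA : k ∉ A := fun h => hk (Or.inl h)
  have hS2 : 0 < S + 2 := by linarith
  have hsub : Metric.ball m₀ (x.2 / 5) ⊆ {ξ : ℂ | (x, ξ) ∈ ZZ A B S} := by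
    intro ξ hξ
    have h1 := hWprop ξ hξ
    refine ⟨hx, hA (hW hξ), hsb, h1.1, ?_⟩
    intro k' hk'
    exact h1.2 k' (hLS k' hk')
  have hlow : ∀ ξ ∈ Metric.ball m₀ (x.2 / 5),
      1 / (16 * (S + 2) ^ 2 * x.2 ^ 2) ≤ rX F ξ := by
    intro ξ hξ
    have hξA : ξ ∈ A := hA (hW hξ)
    have h1 := hKQ.2.1 F A hKD.opA hCF.dif hCF.inj hCF.img ξ hξA k hkA
    refine le_trans ?_ h1
    have hne : ξ - k ≠ 0 := by
      intro h
      apply hkA
      rw [← sub_eq_zero.mp h]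
      exact hξA
    have hpos : 0 < ‖ξ - k‖ := norm_pos_iff.mpr hne
    have hd1 : ‖ξ - m₀‖ < x.2 / 5 := by
      rw [← dist_eq_norm]; exact hξ
    have hd : ‖ξ - k‖ ≤ 2 * (S + 2) * x.2 := by
      have e : ξ - k = (ξ - m₀) + (m₀ - x.1) + (x.1 - k) := by ring
      calc ‖ξ - k‖ ≤ ‖ξ - m₀‖ + ‖m₀ - x.1‖ + ‖x.1 - k‖ := by
            rw [e]; exact norm_add₃_le
        _ ≤ x.2 / 5 + x.2 + (2 * S + 2) * x.2 := by linarith
        _ ≤ 2 * (S + 2) * x.2 := by nlinarith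
    apply one_div_le_one_div_of_le (by positivity)
    have := pow_le_pow_left₀ hpos.le hd 2
    nlinarith
  have hmeas : MeasurableSet (Metric.ball m₀ (x.2 / 5)) := Metric.isOpen_ball.measurableSet
  calc ENNReal.ofReal (1 / (128 * (S + 2) ^ 2))
      ≤ ENNReal.ofReal (1 / (16 * (S + 2) ^ 2 * x.2 ^ 2)) *
          volume (Metric.ball m₀ (x.2 / 5)) := by
        rw [Complex.volume_ball]
        have e1 : (ENNReal.ofReal (x.2 / 5)) ^ 2 * (NNReal.pi : ℝ≥0∞) =
            ENNReal.ofReal ((x.2 / 5) ^ 2 * Real.pi) := by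
          rw [ENNReal.ofReal_mul (by positivity), ENNReal.ofReal_pow (by positivity)]
          congr 1
          rw [ENNReal.ofReal, ← NNReal.coe_real_pi, Real.toNNReal_coe]
        rw [e1, ← ENNReal.ofReal_mul (by positivity)]
        apply ENNReal.ofReal_le_ofReal
        have e2 : 1 / (16 * (S + 2) ^ 2 * x.2 ^ 2) * ((x.2 / 5) ^ 2 * Real.pi) =
            Real.pi / (400 * (S + 2) ^ 2) := by
          field_simp
          ring
        rw [e2, div_le_div_iff₀ (by positivity) (by positivity)]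
        have hpi := Real.pi_gt_d2
        have h3 : 0 < (S + 2) ^ 2 := by positivity
        nlinarith
    _ = ∫⁻ ξ in Metric.ball m₀ (x.2 / 5),
          ENNReal.ofReal (1 / (16 * (S + 2) ^ 2 * x.2 ^ 2)) := by
        rw [setLIntegral_const]
    _ ≤ ∫⁻ ξ in Metric.ball m₀ (x.2 / 5), ENNReal.ofReal (rX F ξ) := by
        apply setLIntegral_mono' hmeas
        intro ξ hξ
        exact ENNReal.ofReal_le_ofReal (hlow ξ hξ)
    _ ≤ ∫⁻ ξ in {ξ : ℂ | (x, ξ) ∈ ZZ A B S}, ENNReal.ofReal (rX F ξ) :=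
        lintegral_mono_set hsub

end Pool.Agent.Helper21.QT
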