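import Pool.Agent.Helper69.QT.St
import Pool.Agent.Helper6.QC.M_MBB

/-!
# Project QD (MP_d112a4_gt), theorem T1 (thick end), module TX2: Theorem C applied.
-/

set_option autoImplicit false

open MeasureTheory Set Filter Topology Complex
open scoped ENNReal ComplexConjugate

namespace Pool.Agent.Helper21.QT

open Pool.Agent.Helper69.QT
open Pool.Agent.Helper68.QC (Bel InvB Intw nq Fam2 Hol2 Rep2 Sol)
open Pool.Agent.Helper61.QE (D Dx nuT muT En Et Kap FD Ab)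
open Pool.Agent.Helper35.PM (SL Mat SurfaceGroup IsQF IsFuchsian Adapted pressureDist PressureLE HolDisc
  ent hs limitSet zt)
open Pool.Agent.Helper86.QA (FDOn ad)
open Pool.Agent.Helper20.QD (Fuch IsSU mob)
open Pool.Agent.Helper69.QC (Maj Orb mb vv)

/-- the Blaschke factor divided by its value at `0` -/
noncomputable def aa (k : ℝ) (z : ℂ) : ℂ := ((k : ℂ) - z) / ((k : ℂ) * (1 - (k : ℂ) * z))

theorem aa_den {k : ℝ} (hk0 : 0 < k) (hk1 : k < 1) {z : ℂ} (hz : ‖z‖ < 1) :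
    (1 - (k : ℂ) * z) ≠ 0 := by
  intro h
  have h1 : (k : ℂ) * z = 1 := by linear_combination -h
  have h2 : ‖(k : ℂ) * z‖ < 1 := by
    rw [norm_mul, Complex.norm_real, Real.norm_of_nonneg hk0.le]
    nlinarith [norm_nonneg z]
  rw [h1, norm_one] at h2
  exact lt_irrefl _ h2

theorem aa_zero {k : ℝ} (hk0 : 0 < k) : aa k 0 = 1 := by
  unfold aa
  have : (k : ℂ) ≠ 0 := by exact_mod_cast hk0.ne'
  rw [mul_zero, sub_zero, sub_zero, mul_one, div_self this]

theorem aa_self (k : ℝ) : aa k (k : ℂ) = 0 := by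
  unfold aa
  rw [sub_self, zero_div]

theorem aa_hol {k : ℝ} (hk0 : 0 < k) (hk1 : k < 1) :
    DifferentiableOn ℂ (aa k) (Metric.ball 0 1) := by
  intro z hz
  have hz1 : ‖z‖ < 1 := by simpa using hz
  have hk : (k : ℂ) ≠ 0 := by exact_mod_cast hk0.ne'
  have hne : (k : ℂ) * (1 - (k : ℂ) * z) ≠ 0 := mul_ne_zero hk (aa_den hk0 hk1 hz1)
  have h1 : DifferentiableAt ℂ (fun z : ℂ => (k : ℂ) - z) z := by fun_prop
  have h2 : DifferentiableAt ℂ (fun z : ℂ => (k : ℂ) * (1 - (k : ℂ) * z)) z := by fun_prop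
  exact (h1.div h2 hne).differentiableWithinAt

/-- the bound `K r` -/
noncomputable def KK (k r : ℝ) : ℝ := (r + k) / (1 + r * k)

theorem KK_lt {k r : ℝ} (hk0 : 0 < k) (hk1 : k < 1) (hr0 : 0 ≤ r) (hr1 : r < 1) : KK k r < 1 := by
  unfold KK
  rw [div_lt_one (by positivity)]
  nlinarith [mul_pos (sub_pos.mpr hr1) (sub_pos.mpr hk1)]

theorem KK_mono {k x r : ℝ} (hk0 : 0 < k) (hk1 : k < 1) (hx0 : 0 ≤ x) (hxr : x ≤ r) :
    KK k x ≤ KK k r := by
  unfold KK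
  have hr0 : 0 ≤ r := hx0.trans hxr
  rw [div_le_div_iff₀ (by positivity) (by positivity)]
  have h1 : 0 ≤ (r - x) * (1 - k ^ 2) := mul_nonneg (sub_nonneg.mpr hxr) (by nlinarith)
  nlinarith

theorem KK_nonneg {k r : ℝ} (hk0 : 0 < k) (hr0 : 0 ≤ r) : 0 ≤ KK k r := by
  unfold KK; positivity

theorem KK_ge {k r : ℝ} (hk0 : 0 < k) (hk1 : k < 1) (hr0 : 0 ≤ r) (hr1 : r < 1) : r ≤ KK k r := by
  unfold KK
  rw [le_div_iff₀ (by positivity)]
  nlinarith [mul_nonneg hk0.le (show 0 ≤ 1 - r ^ 2 by nlinarith)]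

theorem aa_bound {k : ℝ} (hk0 : 0 < k) (hk1 : k < 1) {z : ℂ} (hz : ‖z‖ < 1) {u : ℂ} (hu : ‖u‖ ≤ k) :
    ‖aa k z * u‖ ≤ KK k ‖z‖ := by
  have hkn : ‖(-(k : ℂ))‖ = k := by
    rw [norm_neg, Complex.norm_real, Real.norm_of_nonneg hk0.le]
  have hp : (-(k : ℂ)) ∈ Metric.ball (0 : ℂ) 1 := by
    rw [mem_ball_zero_iff, hkn]; exact hk1
  have hz' : z ∈ Metric.ball (0 : ℂ) 1 := by rw [mem_ball_zero_iff]; exact hz
  have h1 := ((Pool.Agent.Helper6.QC.cMBB (-(k : ℂ)) hp).2.2.1 z hz').2.1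
  rw [hkn] at h1
  have hk : (k : ℂ) ≠ 0 := by exact_mod_cast hk0.ne'
  have hden := aa_den hk0 hk1 hz
  have e : aa k z * u = -(mb (-(k : ℂ)) z) * (u / k) := by
    unfold aa mb
    rw [map_neg, Complex.conj_ofReal]
    have e1 : 1 + -(k : ℂ) * z = 1 - (k : ℂ) * z := by ring
    rw [e1]
    field_simp
    ring
  rw [e, norm_mul, norm_neg, norm_div, Complex.norm_real, Real.norm_of_nonneg hk0.le]
  have h2 : ‖u‖ / k ≤ 1 := by
    rw [div_le_one hk0]; exact hu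
  calc ‖mb (-(k : ℂ)) z‖ * (‖u‖ / k) ≤ ‖mb (-(k : ℂ)) z‖ * 1 :=
        mul_le_mul_of_nonneg_left h2 (norm_nonneg _)
    _ = ‖mb (-(k : ℂ)) z‖ := mul_one _
    _ ≤ (k + ‖z‖) / (1 + k * ‖z‖) := h1
    _ = KK k ‖z‖ := by unfold KK; rw [add_comm k, mul_comm k]

theorem En_mono {F0 F1 : Set ℂ} (h : F0 ⊆ F1) (μ : ℂ → ℂ) : En F0 μ ≤ En F1 μ := by
  unfold En
  exact lintegral_mono_set (image_mono h)

/-- MODULE TX2. -/
theorem dTX2 : St_TX2 := by
  intro rep df ve kbd ivr suf thc n0 g hg s N F0 F1 h c r0 M hp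
  obtain ⟨C, hC, HC⟩ := ve g hg s F0 hp.ff hp.fd0
  obtain ⟨B, hB, HB⟩ := thc M c r0 C hp.hM hp.hc hp.hr.le hp.hr1 hC
  refine ⟨B, hB, ?_⟩
  intro U hU φ k' κ ρ hd hout
  obtain ⟨ivr1, ivr2, ivr3, ivr4, ivr5⟩ := ivr
  have hsu : ∀ γ, IsSU (s γ) := hp.ff.fu.su
  obtain ⟨nu1, nu2, nu3, nu4⟩ := ivr5 (SurfaceGroup g) s h hsu hp.ab
  set k : ℝ := max k' (1 / 2) with hkdef
  have hk0 : 0 < k := lt_of_lt_of_le (by norm_num) (le_max_right k' (1 / 2))
  have hk1 : k < 1 := max_lt hd.lt (by norm_num)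
  have hκ : ∀ y, ‖κ y‖ ≤ k := fun y => (hd.bel.le y).trans (le_max_left _ _)
  have hκm : Measurable κ := hd.bel.meas
  -- the family
  have hbel : ∀ r : ℝ, 0 ≤ r → r < 1 → ∀ z w : ℂ, ‖z‖ ≤ r → ‖w‖ ≤ r →
      Bel (KK k r) (muT (fun y => aa k z * κ y) h w) := by
    intro r hr0 hr1 z w hz hw
    refine ⟨?_, ?_⟩
    · exact (measurable_const.mul hκm).add (measurable_const.mul nu2)
    · intro y
      show ‖aa k z * κ y + w * nuT h y‖ ≤ KK k r
      rcases lt_or_ge 1 ‖y‖ with hy | hy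
      · rw [hout y hy.le, mul_zero, zero_add, norm_mul]
        calc ‖w‖ * ‖nuT h y‖ ≤ ‖w‖ * 1 := mul_le_mul_of_nonneg_left (nu3 y) (norm_nonneg _)
          _ = ‖w‖ := mul_one _
          _ ≤ r := hw
          _ ≤ KK k r := KK_ge hk0 hk1 hr0 hr1
      · rw [nu4 y hy, mul_zero, add_zero]
        exact (aa_bound hk0 hk1 (lt_of_le_of_lt hz hr1) (hκ y)).trans
          (KK_mono hk0 hk1 (norm_nonneg _) hz)
  have hbelκ : ∀ z : ℂ, ‖z‖ < 1 → Bel (KK k ‖z‖) (fun y => aa k z * κ y) := by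
    intro z hz
    exact ⟨measurable_const.mul hκm, fun y => aa_bound hk0 hk1 hz (hκ y)⟩
  have hfam : Fam2 (fun z w => muT (fun y => aa k z * κ y) h w) := by
    refine ⟨?_, ?_, ?_⟩
    · intro r hr
      refine ⟨KK k (max r 0), KK_lt hk0 hk1 (le_max_right _ _) (max_lt hr (by norm_num)), ?_⟩
      intro z hz w hw
      rw [mem_closedBall_zero_iff] at hz hw
      exact hbel (max r 0) (le_max_right _ _) (max_lt hr (by norm_num)) z w
        (hz.trans (le_max_left _ _)) (hw.trans (le_max_left _ _))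
    · intro y w _
      have h1 : DifferentiableOn ℂ (fun z => aa k z * κ y + w * nuT h y) (Metric.ball 0 1) :=
        ((aa_hol hk0 hk1).mul_const _).add_const _
      exact h1
    · intro y z _
      have h1 : DifferentiableOn ℂ (fun w => aa k z * κ y + w * nuT h y) (Metric.ball 0 1) := by
        fun_prop
      exact h1
  have hinv : ∀ (z w : ℂ) (x : SurfaceGroup g), InvB (s x) (muT (fun y => aa k z * κ y) h w) := by
    intro z w x
    exact ivr3 (s x) κ (nuT h) (aa k z) w (hd.inv x) (nu1 x)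
  have hinvκ : ∀ (z : ℂ) (x : SurfaceGroup g), InvB (s x) (fun y => aa k z * κ y) := by
    intro z x
    have h1 := ivr3 (s x) κ κ (aa k z) 0 (hd.inv x) (hd.inv x)
    have e : (fun y => aa k z * κ y + 0 * κ y) = fun y => aa k z * κ y := by
      funext y; ring
    rw [e] at h1
    exact h1
  have e00 : muT (fun y => aa k 0 * κ y) h 0 = κ := by
    funext y
    unfold muT
    rw [aa_zero hk0]; ring
  obtain ⟨R, hR0, hRhol, hRint⟩ := rep (fun z w => muT (fun y => aa k z * κ y) h w) hfam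
    (SurfaceGroup g) inferInstance (s.comp φ.toMonoidHom) ρ
    (fun z _ w _ γ => hinv z w (φ γ))
    (fun γ => by
      have h1 := hd.eqv γ
      rw [← e00] at h1
      exact h1)
  have hDef : ∀ z ∈ Metric.ball (0 : ℂ) 1, ∀ w ∈ Metric.ball (0 : ℂ) 1,
      Def s φ (KK k (max ‖z‖ ‖w‖)) (muT (fun y => aa k z * κ y) h w) (R z w) := by
    intro z hz w hw
    have hz1 : ‖z‖ < 1 := by simpa using hz
    have hw1 : ‖w‖ < 1 := by simpa using hw
    have hm0 : 0 ≤ max ‖z‖ ‖w‖ := (norm_nonneg z).trans (le_max_left _ _)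
    have hm1 : max ‖z‖ ‖w‖ < 1 := max_lt hz1 hw1
    exact ⟨KK_lt hk0 hk1 hm0 hm1, hbel _ hm0 hm1 z w (le_max_left _ _) (le_max_right _ _),
      fun x => hinv z w x, fun x => hRint z hz w hw x⟩
  have hQF : ∀ z ∈ Metric.ball (0 : ℂ) 1, ∀ w ∈ Metric.ball (0 : ℂ) 1, IsQF (R z w) :=
    fun z hz w hw => df g s φ _ _ (R z w) hp.ff (hDef z hz w hw)
  have hH1 : ∀ z ∈ Metric.ball (0 : ℂ) 1, HolDisc (R z) := fun z hz =>
    ⟨fun γ i j => (hRhol γ i j).2.2 z hz, fun w hw => hQF z hz w hw⟩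
  have hH2 : ∀ w ∈ Metric.ball (0 : ℂ) 1, HolDisc (fun z => R z w) := fun w hw =>
    ⟨fun γ i j => (hRhol γ i j).2.1 w hw, fun z hz => hQF z hz w hw⟩
  have hzero : (0 : ℂ) ∈ Metric.ball (0 : ℂ) 1 := Metric.mem_ball_self one_pos
  have main := HB g hg U hU R hH1 hH2 (fun z w => Et F1 (fun y => aa k z * κ y) h w) (by
    intro z hz
    have hz1 : ‖z‖ < 1 := by simpa using hz
    have hKlt := KK_lt hk0 hk1 (norm_nonneg z) hz1
    have hKap : Kap (s.comp N.subtype) (KK k ‖z‖) (fun y => aa k z * κ y) := by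
      refine ⟨hbelκ z hz1, ?_, ?_⟩
      · intro y hy
        rw [hout y hy, mul_zero]
      · intro γ
        exact hinvκ z _
    refine ⟨hp.maj _ hKlt _ hKap, ?_, ?_⟩
    · intro w hw
      have hb := hp.bnd _ hKlt _ hKap w hw
      refine ⟨?_, ?_⟩
      · exact ENNReal.toReal_le_of_le_ofReal hp.hM.le hb
      · have h1 := HC φ _ _ _ (hDef z hz w hw)
        have h2 : (En F0 (muT (fun y => aa k z * κ y) h w)).toReal ≤
            Et F1 (fun y => aa k z * κ y) h w := by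
          unfold Et
          exact ENNReal.toReal_mono (ne_top_of_le_ne_top ENNReal.ofReal_ne_top hb)
            (En_mono hp.sub _)
        refine h1.trans (mul_le_mul_of_nonneg_left ?_ hC)
        exact pow_le_pow_left₀ ENNReal.toReal_nonneg h2 2
    · intro p hpO hpb
      exact hp.str _ hKlt _ hKap p hpO hpb)
  obtain ⟨L, hL, hzt, -⟩ := kbd k hk0 hk1
  have hdist := main L hL
  rw [hR0, hzt] at hdist
  have hkb : (k : ℂ) ∈ Metric.ball (0 : ℂ) 1 := by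
    rw [mem_ball_zero_iff, Complex.norm_real, Real.norm_of_nonneg hk0.le]
    exact hk1
  refine ⟨R (k : ℂ) 0, hQF _ hkb 0 hzero, ?_, hdist⟩
  apply suf
  intro γ
  have h1 := hRint (k : ℂ) hkb 0 hzero γ
  have e1 : muT (fun y => aa k (k : ℂ) * κ y) h 0 = fun _ => 0 := by
    funext y
    show aa k (k : ℂ) * κ y + 0 * nuT h y = 0
    rw [aa_self]; ring
  rw [e1] at h1
  have e2 : ((nq (fun _ => (0 : ℂ)) : ℂ ≃ₜ ℂ) : ℂ → ℂ) = fun z => z := by
    funext z; exact n0 z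
  rw [e2] at h1
  exact ivr4 _ _ (hsu _) h1

end Pool.Agent.Helper21.QT
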