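import Pool.Agent.Helper69.QT.St2
import Pool.Agent.Helper39.QCM.M_ITW
import Pool.Agent.Helper21.QT.M_TX2

/-!
# Project QD (MP_d112a4_gt), theorem T1 (thick end), module TX3: Theorem C applied.
-/

set_option autoImplicit false

open MeasureTheory Set Filter Topology Complex
open scoped ENNReal ComplexConjugate

namespace Pool.Agent.Helper21.QT

open Pool.Agent.Helper69.QT
open Pool.Agent.Helper68.QC (Bel InvB Intw nq Fam2 Hol2 Rep2 Sol)
open Pool.Agent.Helper61.QE (D Dx nuT muT En Et Kap FD Ab)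
open Pool.Agent.Helper35.PM (SL Mat SurfaceGroup IsQF IsFuchsian Adapted pressureDist PressureLE HolDisc
  ent hs limitSet zt)
open Pool.Agent.Helper86.QA (FDOn ad)
open Pool.Agent.Helper20.QD (Fuch IsSU mob)
open Pool.Agent.Helper69.QC (Maj Orb mb vv)

/-- MODULE TX3. -/
theorem dTX3 : St_TX3 := by
  intro rep df ve kbd ivr thc n0 g hg s N F0 F1 h c r0 M hp
  obtain ⟨C, hC, HC⟩ := ve g hg s F0 hp.ff hp.fd0
  obtain ⟨B, hB, HB⟩ := thc M c r0 C hp.hM hp.hc hp.hr.le hp.hr1 hC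
  refine ⟨B, hB, ?_⟩
  intro U hU k' κ ρ hd hout
  obtain ⟨ivr1, ivr2, ivr3, ivr4, ivr5⟩ := ivr
  have hsu : ∀ γ, IsSU (s γ) := hp.ff.fu.su
  obtain ⟨nu1, nu2, nu3, nu4⟩ := ivr5 (SurfaceGroup g) s h hsu hp.ab
  set k : ℝ := max k' (1 / 2) with hkdef
  have hk0 : 0 < k := lt_of_lt_of_le (by norm_num) (le_max_right k' (1 / 2))
  have hk1 : k < 1 := max_lt hd.lt (by norm_num)
  have hκ : ∀ y, ‖κ y‖ ≤ k := fun y => (hd.bel.le y).trans (le_max_left _ _)
  have hκm : Measurable κ := hd.bel.meas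
  -- the family
  have hbel : ∀ r : ℝ, 0 ≤ r → r < 1 → ∀ z w : ℂ, ‖z‖ ≤ r → ‖w‖ ≤ r →
      Bel (KK k r) (muT (fun y => aa k z * κ y) h w) := by
    intro r hr0 hr1 z w hz hw
    refine ⟨?_, ?_⟩
    · exact (measurable_const.mul hκm).add (measurable_const.mul nu2)
    · intro y
      show ‖aa k z * κ y + w * nuT h y‖ ≤ KK k r
      rcases lt_or_ge 1 ‖y‖ with hy | hy
      · rw [hout y hy.le, mul_zero, zero_add, norm_mul]
        calc ‖w‖ * ‖nuT h y‖ ≤ ‖w‖ * 1 := mul_le_mul_of_nonneg_left (nu3 y) (norm_nonneg _)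
          _ = ‖w‖ := mul_one _
          _ ≤ r := hw
          _ ≤ KK k r := KK_ge hk0 hk1 hr0 hr1
      · rw [nu4 y hy, mul_zero, add_zero]
        exact (aa_bound hk0 hk1 (lt_of_le_of_lt hz hr1) (hκ y)).trans
          (KK_mono hk0 hk1 (norm_nonneg _) hz)
  have hbelκ : ∀ z : ℂ, ‖z‖ < 1 → Bel (KK k ‖z‖) (fun y => aa k z * κ y) := by
    intro z hz
    exact ⟨measurable_const.mul hκm, fun y => aa_bound hk0 hk1 hz (hκ y)⟩
  have hfam : Fam2 (fun z w => muT (fun y => aa k z * κ y) h w) := by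
    refine ⟨?_, ?_, ?_⟩
    · intro r hr
      refine ⟨KK k (max r 0), KK_lt hk0 hk1 (le_max_right _ _) (max_lt hr (by norm_num)), ?_⟩
      intro z hz w hw
      rw [mem_closedBall_zero_iff] at hz hw
      exact hbel (max r 0) (le_max_right _ _) (max_lt hr (by norm_num)) z w
        (hz.trans (le_max_left _ _)) (hw.trans (le_max_left _ _))
    · intro y w _
      have h1 : DifferentiableOn ℂ (fun z => aa k z * κ y + w * nuT h y) (Metric.ball 0 1) :=
        ((aa_hol hk0 hk1).mul_const _).add_const _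
      exact h1
    · intro y z _
      have h1 : DifferentiableOn ℂ (fun w => aa k z * κ y + w * nuT h y) (Metric.ball 0 1) := by
        fun_prop
      exact h1
  have hinv : ∀ (z w : ℂ) (x : SurfaceGroup g), InvB (s x) (muT (fun y => aa k z * κ y) h w) := by
    intro z w x
    exact ivr3 (s x) κ (nuT h) (aa k z) w (hd.inv x) (nu1 x)
  have hinvκ : ∀ (z : ℂ) (x : SurfaceGroup g), InvB (s x) (fun y => aa k z * κ y) := by
    intro z x
    have h1 := ivr3 (s x) κ κ (aa k z) 0 (hd.inv x) (hd.inv x)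
    have e : (fun y => aa k z * κ y + 0 * κ y) = fun y => aa k z * κ y := by
      funext y; ring
    rw [e] at h1
    exact h1
  have e00 : muT (fun y => aa k 0 * κ y) h 0 = κ := by
    funext y
    unfold muT
    rw [aa_zero hk0]; ring
  obtain ⟨R, hR0, hRhol, hRint⟩ := rep (fun z w => muT (fun y => aa k z * κ y) h w) hfam
    (SurfaceGroup g) inferInstance s ρ
    (fun z _ w _ γ => hinv z w γ)
    (fun γ => by
      have h1 := hd.eqv γ
      rw [← e00] at h1
      exact h1)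
  have hDef : ∀ z ∈ Metric.ball (0 : ℂ) 1, ∀ w ∈ Metric.ball (0 : ℂ) 1,
      Def s (MulEquiv.refl (SurfaceGroup g)) (KK k (max ‖z‖ ‖w‖)) (muT (fun y => aa k z * κ y) h w) (R z w) := by
    intro z hz w hw
    have hz1 : ‖z‖ < 1 := by simpa using hz
    have hw1 : ‖w‖ < 1 := by simpa using hw
    have hm0 : 0 ≤ max ‖z‖ ‖w‖ := (norm_nonneg z).trans (le_max_left _ _)
    have hm1 : max ‖z‖ ‖w‖ < 1 := max_lt hz1 hw1
    exact ⟨KK_lt hk0 hk1 hm0 hm1, hbel _ hm0 hm1 z w (le_max_left _ _) (le_max_right _ _),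
      fun x => hinv z w x, fun x => hRint z hz w hw x⟩
  have hQF : ∀ z ∈ Metric.ball (0 : ℂ) 1, ∀ w ∈ Metric.ball (0 : ℂ) 1, IsQF (R z w) :=
    fun z hz w hw => df g s (MulEquiv.refl (SurfaceGroup g)) _ _ (R z w) hp.ff (hDef z hz w hw)
  have hH1 : ∀ z ∈ Metric.ball (0 : ℂ) 1, HolDisc (R z) := fun z hz =>
    ⟨fun γ i j => (hRhol γ i j).2.2 z hz, fun w hw => hQF z hz w hw⟩
  have hH2 : ∀ w ∈ Metric.ball (0 : ℂ) 1, HolDisc (fun z => R z w) := fun w hw =>
    ⟨fun γ i j => (hRhol γ i j).2.1 w hw, fun z hz => hQF z hz w hw⟩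
  have hzero : (0 : ℂ) ∈ Metric.ball (0 : ℂ) 1 := Metric.mem_ball_self one_pos
  have main := HB g hg U hU R hH1 hH2 (fun z w => Et F1 (fun y => aa k z * κ y) h w) (by
    intro z hz
    have hz1 : ‖z‖ < 1 := by simpa using hz
    have hKlt := KK_lt hk0 hk1 (norm_nonneg z) hz1
    have hKap : Kap (s.comp N.subtype) (KK k ‖z‖) (fun y => aa k z * κ y) := by
      refine ⟨hbelκ z hz1, ?_, ?_⟩
      · intro y hy
        rw [hout y hy, mul_zero]
      · intro γ
        exact hinvκ z _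
    refine ⟨hp.maj _ hKlt _ hKap, ?_, ?_⟩
    · intro w hw
      have hb := hp.bnd _ hKlt _ hKap w hw
      refine ⟨?_, ?_⟩
      · exact ENNReal.toReal_le_of_le_ofReal hp.hM.le hb
      · have h1 := HC (MulEquiv.refl (SurfaceGroup g)) _ _ _ (hDef z hz w hw)
        have h2 : (En F0 (muT (fun y => aa k z * κ y) h w)).toReal ≤
            Et F1 (fun y => aa k z * κ y) h w := by
          unfold Et
          exact ENNReal.toReal_mono (ne_top_of_le_ne_top ENNReal.ofReal_ne_top hb)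
            (En_mono hp.sub _)
        refine h1.trans (mul_le_mul_of_nonneg_left ?_ hC)
        exact pow_le_pow_left₀ ENNReal.toReal_nonneg h2 2
    · intro p hpO hpb
      exact hp.str _ hKlt _ hKap p hpO hpb)
  obtain ⟨L, hL, hzt, -⟩ := kbd k hk0 hk1
  have hdist := main L hL
  rw [hR0, hzt] at hdist
  have hkb : (k : ℂ) ∈ Metric.ball (0 : ℂ) 1 := by
    rw [mem_ball_zero_iff, Complex.norm_real, Real.norm_of_nonneg hk0.le]
    exact hk1
  have hfin : pressureDist U (R (k : ℂ) 0) s ≤ 0 := by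
    refine sInf_le (PressureLE.conj (R (k : ℂ) 0) s 1 ?_)
    intro γ
    have h1 := hRint (k : ℂ) hkb 0 hzero γ
    have e1 : muT (fun y => aa k (k : ℂ) * κ y) h 0 = fun _ => 0 := by
      funext y
      show aa k (k : ℂ) * κ y + 0 * nuT h y = 0
      rw [aa_self]; ring
    rw [e1] at h1
    have h2 : Intw (s γ) (s γ) (nq (fun _ => (0 : ℂ)) : ℂ ≃ₜ ℂ) := by
      have e2 : ((nq (fun _ => (0 : ℂ)) : ℂ ≃ₜ ℂ) : ℂ → ℂ) = fun z => z := by
        funext z; exact n0 z
      rw [e2]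
      exact ⟨fun z => Iff.rfl, fun z _ => rfl, Iff.rfl, fun _ => rfl⟩
    rw [one_mul, inv_one, mul_one]
    rcases Pool.Agent.Helper39.QCM.pITW.1 _ _ _ _ h1 h2 with e | e
    · left
      rw [e]
    · right
      rw [e]
      exact Matrix.SpecialLinearGroup.coe_neg _
  refine (dist_tri U ρ (R (k : ℂ) 0) s).trans ?_
  calc pressureDist U ρ (R (k : ℂ) 0) + pressureDist U (R (k : ℂ) 0) s
      ≤ ENNReal.ofReal B + 0 := add_le_add hdist hfin
    _ = ENNReal.ofReal B := add_zero _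

end Pool.Agent.Helper21.QT
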